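import Pool.Agent.Helper894.FS.Final

namespace Pool.Agent.Results.MP_13a6c0_al.SqrtComplexity

open Pool.Agent.Helper894.FS

/-- If the word complexity of the subshift satisfies log N_n = o(sqrt n) along some sequence,
then neither the topological full group nor the group generated by the local shifts
contains a nonabelian free group. -/
theorem result {A : Type} [Finite A] (F : Set (List A)) (hF : ∀ a : A, [a, a] ∈ F)
    (h : ∀ ε : ℝ, 0 < ε → ∀ n₀ : ℕ, ∃ n ≥ n₀,
      Real.log (numWords F n) ≤ ε * Real.sqrt n) :
    ¬ HasFree (FullSF F) ∧ ¬ HasFree (GSF F) :=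
  ⟨no_free_full F hF h, no_free_G F hF h⟩

end Pool.Agent.Results.MP_13a6c0_al.SqrtComplexity
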